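import Mathlib
import Pool.Agent.R332.LinForm

/-!
# The admissible pairs `(m, n)` are those with `m ≥ 2`

There is a continuous, strongly nowhere constant map with the LIC property from the real `m × n`
matrices to themselves which avoids the Liouville matrices, if and only if `m ≥ 2`.
-/

open Topology

namespace Pool.Agent.Results.MP_6d7a61_nt.AdmissiblePairs

/-- an integer vector as a real vector -/
def toReal {n : ℕ} (y : Fin n → ℤ) : Fin n → ℝ := fun i => (y i : ℝ)

/-- a rational matrix as a real matrix -/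
def ratToReal {m n : ℕ} (R : Matrix (Fin m) (Fin n) ℚ) : Matrix (Fin m) (Fin n) ℝ :=
  R.map fun r : ℚ => (r : ℝ)

/-- Liouville matrices: (1) `A q ≠ p` for all integer vectors `q`, `p`, not both zero; (2) for
every `N > 0` there are integer vectors `p` and `q` with `‖q‖ > 1` and `‖A q - p‖ < ‖q‖ ^ (-N)`
(sup-norms). -/
def IsLiouville {m n : ℕ} (A : Matrix (Fin m) (Fin n) ℝ) : Prop :=
  (∀ (q : Fin n → ℤ) (p : Fin m → ℤ), (q ≠ 0 ∨ p ≠ 0) → A.mulVec (toReal q) ≠ toReal p) ∧
    ∀ N : ℝ, 0 < N → ∃ (p : Fin m → ℤ) (q : Fin n → ℤ), 1 < ‖toReal q‖ ∧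
      ‖A.mulVec (toReal q) - toReal p‖ < ‖toReal q‖ ^ (-N)

/-- the LIC property -/
def LIC {m n : ℕ} (f : Matrix (Fin m) (Fin n) ℝ → Matrix (Fin m) (Fin n) ℝ) : Prop :=
  ∀ Ω : Set (Matrix (Fin m) (Fin n) ℝ), (interior Ω).Nonempty →
    ¬ ∃ (p : Fin m → ℤ) (q : Fin n → ℤ), q ≠ 0 ∧
      ∀ B ∈ f '' Ω, B.mulVec (toReal q) = toReal p

/-- `g` is constant on no non-empty open set -/
def NowhereConst {m n : ℕ} (g : Matrix (Fin m) (Fin n) ℝ → ℝ) : Prop :=
  ∀ U : Set (Matrix (Fin m) (Fin n) ℝ), IsOpen U → U.Nonempty → ¬ ∃ c : ℝ, ∀ A ∈ U, g A = c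

/-- `f` is strongly nowhere constant -/
def StronglyNowhereConst {m n : ℕ}
    (f : Matrix (Fin m) (Fin n) ℝ → Matrix (Fin m) (Fin n) ℝ) : Prop :=
  ∀ (R₁ : Matrix (Fin m) (Fin m) ℚ) (R₂ : Matrix (Fin n) (Fin n) ℚ)
    (T : Matrix (Fin m) (Fin n) ℚ), IsUnit R₁ → IsUnit R₂ → ∀ i j,
      NowhereConst fun A => (ratToReal R₁ * f A * ratToReal R₂ + ratToReal T) i j

/-- `(m, n)` is admissible -/
def Admissible (m n : ℕ) : Prop :=
  ∃ f : Matrix (Fin m) (Fin n) ℝ → Matrix (Fin m) (Fin n) ℝ,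
    Continuous f ∧ StronglyNowhereConst f ∧ LIC f ∧ ∀ A, ¬ IsLiouville (f A)

/-! ### `m = 1` -/

/-- the entries of a strongly nowhere constant map are nowhere constant -/
theorem entry {m n : ℕ} {f : Matrix (Fin m) (Fin n) ℝ → Matrix (Fin m) (Fin n) ℝ}
    (hf : StronglyNowhereConst f) (i : Fin m) (j : Fin n) : NowhereConst fun A => f A i j := by
  have h := hf 1 1 0 isUnit_one isUnit_one i j
  have e : (fun A => (ratToReal (1 : Matrix (Fin m) (Fin m) ℚ) * f A *
      ratToReal (1 : Matrix (Fin n) (Fin n) ℚ) + ratToReal (0 : Matrix (Fin m) (Fin n) ℚ)) i j) =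
      fun A => f A i j := by
    funext A
    have e1 : ratToReal (1 : Matrix (Fin m) (Fin m) ℚ) = 1 := by
      unfold ratToReal
      rw [Matrix.map_one _ Rat.cast_zero Rat.cast_one]
    have e2 : ratToReal (1 : Matrix (Fin n) (Fin n) ℚ) = 1 := by
      unfold ratToReal
      rw [Matrix.map_one _ Rat.cast_zero Rat.cast_one]
    have e3 : ratToReal (0 : Matrix (Fin m) (Fin n) ℚ) = 0 := by
      unfold ratToReal
      rw [Matrix.map_zero _ Rat.cast_zero]
    rw [e1, e2, e3, Matrix.one_mul, Matrix.mul_one, add_zero]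
  rw [e] at h
  exact h

/-- a continuous nowhere constant function takes a rational value on every open set -/
theorem exists_rat {m n : ℕ} (g : Matrix (Fin m) (Fin n) ℝ → ℝ) (hg : Continuous g)
    (hc : NowhereConst g) (U : Set (Matrix (Fin m) (Fin n) ℝ)) (hU : IsOpen U)
    (hne : U.Nonempty) : ∃ A ∈ U, ∃ r : ℚ, g A = r := by
  obtain ⟨A₀, hA₀⟩ := hne
  -- work in the normed space of functions
  let X := Fin m → Fin n → ℝ
  let g' : X → ℝ := g
  have hg' : Continuous g' := hg
  let U' : Set X := U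
  have hU' : IsOpen U' := hU
  obtain ⟨ε, hε, hball⟩ := Metric.isOpen_iff.1 hU' A₀ hA₀
  let B₀ : Set X := Metric.ball (α := X) A₀ ε
  have hself : (A₀ : X) ∈ B₀ := Metric.mem_ball_self (α := X) hε
  have hB₀ : IsOpen B₀ := Metric.isOpen_ball
  have hconv : IsPreconnected B₀ := (convex_ball (E := X) A₀ ε).isPreconnected
  have hnc := hc B₀ hB₀ ⟨A₀, hself⟩
  obtain ⟨B, hB, hBA⟩ : ∃ B ∈ B₀, g' B ≠ g' A₀ := by
    by_contra hcon
    push Not at hcon
    exact hnc ⟨g' A₀, hcon⟩
  have key : ∀ P Q : X, P ∈ B₀ → Q ∈ B₀ → g' P < g' Q → ∃ A ∈ U, ∃ r : ℚ, g A = r := by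
    intro P Q hP hQ hPQ
    obtain ⟨r, hr1, hr2⟩ := exists_rat_btwn hPQ
    obtain ⟨C, hC, hCr⟩ := hconv.intermediate_value hP hQ hg'.continuousOn ⟨hr1.le, hr2.le⟩
    exact ⟨C, hball hC, r, hCr⟩
  rcases lt_or_gt_of_ne hBA with h | h
  · exact key _ _ hB hself h
  · exact key _ _ hself hB h

theorem not_admissible_one (n : ℕ) (hn : 1 ≤ n) : ¬ Admissible 1 n := by
  rintro ⟨f, hf, hsnc, hlic, hL⟩
  obtain ⟨n, rfl⟩ : ∃ k, n = k + 1 := ⟨n - 1, by omega⟩
  have : BaireSpace (Matrix (Fin 1) (Fin (n + 1)) ℝ) :=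
    inferInstanceAs (BaireSpace (Fin 1 → Fin (n + 1) → ℝ))
  let O : (((Fin (n + 1) → ℤ) × (Fin 1 → ℤ)) ⊕ ℕ) → Set (Matrix (Fin 1) (Fin (n + 1)) ℝ) :=
    Sum.elim (fun c => {A | c.1 = 0 ∨ (f A).mulVec (toReal c.1) ≠ toReal c.2})
      (fun N => {A | ∃ (p : Fin 1 → ℤ) (q : Fin (n + 1) → ℤ), 1 < ‖toReal q‖ ∧
        ‖(f A).mulVec (toReal q) - toReal p‖ < ‖toReal q‖ ^ (-((N : ℝ) + 1))})
  have hcont : ∀ q : Fin (n + 1) → ℤ, Continuous fun A => (f A).mulVec (toReal q) := fun q =>
    hf.matrix_mulVec continuous_const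
  have hopen : ∀ s, IsOpen (O s) := by
    rintro (⟨q, p⟩ | N)
    · by_cases hq : q = 0
      · have : O (Sum.inl (q, p)) = Set.univ := by
          ext A
          simp [O, hq]
        rw [this]
        exact isOpen_univ
      · have : O (Sum.inl (q, p)) = {A | (f A).mulVec (toReal q) = toReal p}ᶜ := by
          ext A
          simp [O, hq]
        rw [this]
        exact (isClosed_eq (hcont q) continuous_const).isOpen_compl
    · have : O (Sum.inr N) = ⋃ (p : Fin 1 → ℤ), ⋃ (q : Fin (n + 1) → ℤ), ⋃ (_ : 1 < ‖toReal q‖),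
          {A | ‖(f A).mulVec (toReal q) - toReal p‖ < ‖toReal q‖ ^ (-((N : ℝ) + 1))} := by
        ext A
        simp [O]
      rw [this]
      refine isOpen_iUnion fun p => isOpen_iUnion fun q => isOpen_iUnion fun _ => ?_
      exact isOpen_lt ((hcont q).sub continuous_const).norm continuous_const
  have hdense : ∀ s, Dense (O s) := by
    rintro (⟨q, p⟩ | N)
    · by_cases hq : q = 0
      · have : O (Sum.inl (q, p)) = Set.univ := by
          ext A
          simp [O, hq]
        rw [this]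
        exact dense_univ
      · have : O (Sum.inl (q, p)) = {A | (f A).mulVec (toReal q) = toReal p}ᶜ := by
          ext A
          simp [O, hq]
        rw [this, ← interior_eq_empty_iff_dense_compl, ← Set.not_nonempty_iff_eq_empty]
        intro hne
        refine hlic _ hne ⟨p, q, hq, ?_⟩
        rintro _ ⟨A, hA, rfl⟩
        exact hA
    · rw [dense_iff_inter_open]
      intro U hU hne
      obtain ⟨A, hA, r, hr⟩ := exists_rat (fun A => f A 0 0)
        (hf.matrix_elem 0 0) (entry hsnc 0 0) U hU hne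
      refine ⟨A, hA, ?_⟩
      let q : Fin (n + 1) → ℤ := Pi.single 0 (2 * (r.den : ℤ))
      let p : Fin 1 → ℤ := fun _ => 2 * r.num
      have hden : (0 : ℝ) < r.den := by exact_mod_cast r.den_pos
      have hden1 : (1 : ℝ) ≤ r.den := by exact_mod_cast r.den_pos
      have hq1 : 1 < ‖toReal q‖ := by
        have h1 := norm_le_pi_norm (toReal q) 0
        have h2 : toReal q 0 = 2 * r.den := by
          simp [toReal, q]
        rw [h2, Real.norm_eq_abs, abs_of_pos (by positivity)] at h1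
        linarith
      refine ⟨p, q, hq1, ?_⟩
      have h0 : (f A).mulVec (toReal q) - toReal p = 0 := by
        funext i
        rw [Subsingleton.elim i 0, Pi.sub_apply, Pi.zero_apply, sub_eq_zero]
        unfold Matrix.mulVec dotProduct
        rw [Finset.sum_eq_single 0]
        · have h4 : toReal q 0 = 2 * r.den := by simp [toReal, q]
          have h5 : toReal p 0 = 2 * r.num := by simp [toReal, p]
          have h3 : (r : ℝ) * r.den = r.num := by exact_mod_cast Rat.mul_den_eq_num r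
          show f A 0 0 * toReal q 0 = toReal p 0
          rw [h4, h5]
          have h6 : f A 0 0 = r := hr
          rw [h6]
          linear_combination 2 * h3
        · intro j _ hj
          simp [toReal, q, Pi.single_eq_of_ne hj]
        · intro h
          exact absurd (Finset.mem_univ _) h
      rw [h0, norm_zero]
      exact Real.rpow_pos_of_pos (by linarith) _
  have hd := dense_iInter_of_isOpen hopen hdense
  obtain ⟨A, hA⟩ := hd.nonempty
  rw [Set.mem_iInter] at hA
  apply hL A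
  refine ⟨?_, ?_⟩
  · intro q p hqp
    by_cases hq : q = 0
    · rw [hq]
      intro h
      have h1 : (toReal (0 : Fin (n + 1) → ℤ)) = 0 := by
        funext i
        simp [toReal]
      rw [h1, Matrix.mulVec_zero] at h
      have h2 : p = 0 := by
        funext i
        have := congrFun h i
        simpa [toReal] using this.symm
      exact hqp.elim (fun h => h hq) (fun h => h h2)
    · have h := hA (Sum.inl (q, p))
      exact Or.resolve_left h hq
  · intro N hN
    obtain ⟨k, hk⟩ := exists_nat_ge N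
    obtain ⟨p, q, h1, h2⟩ := hA (Sum.inr k)
    refine ⟨p, q, h1, h2.trans_le ?_⟩
    exact Real.rpow_le_rpow_of_exponent_le h1.le (by linarith)

/-! ### `m ≥ 2` -/

/-- a real matrix with algebraic entries which are linearly independent over `ℚ` -/
noncomputable def M (m n : ℕ) : Matrix (Fin m) (Fin n) ℝ := fun i j =>
  Pool.Agent.R332.theta (m * n) ^ (finProdFinEquiv (i, j) : ℕ)

theorem sum_M (m n : ℕ) (a : Fin m → Fin n → ℝ) :
    ∑ i, ∑ j, a i j * M m n i j =
      ∑ k : Fin (m * n), a (finProdFinEquiv.symm k).1 (finProdFinEquiv.symm k).2 *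
        Pool.Agent.R332.theta (m * n) ^ (k : ℕ) := by
  rw [← Fintype.sum_prod_type' (f := fun i j => a i j * M m n i j),
    ← finProdFinEquiv.sum_comp (fun k : Fin (m * n) =>
      a (finProdFinEquiv.symm k).1 (finProdFinEquiv.symm k).2 *
        Pool.Agent.R332.theta (m * n) ^ (k : ℕ))]
  refine Finset.sum_congr rfl fun x _ => ?_
  rw [Equiv.symm_apply_apply]
  rfl

theorem M_rat (m n : ℕ) (hmn : 1 ≤ m * n) (a : Fin m → Fin n → ℚ) (ha : a ≠ 0) :
    ∑ i, ∑ j, (a i j : ℝ) * M m n i j ≠ 0 := by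
  rw [sum_M m n (fun i j => (a i j : ℝ))]
  refine Pool.Agent.R332.sum_neR hmn
    (fun k => a (finProdFinEquiv.symm k).1 (finProdFinEquiv.symm k).2) ?_
  intro h
  apply ha
  funext i j
  have := congrFun h (finProdFinEquiv (i, j))
  simpa using this

theorem M_int (m n : ℕ) (hmn : 1 ≤ m * n) (a : Fin m → Fin n → ℤ) (ha : a ≠ 0) (Q : ℝ)
    (hQ : ∀ i j, |(a i j : ℝ)| ≤ Q) :
    1 ≤ |∑ i, ∑ j, (a i j : ℝ) * M m n i j| * (2 * (m * n : ℕ) * Q) ^ (m * n - 1) := by
  rw [sum_M m n (fun i j => (a i j : ℝ))]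
  refine Pool.Agent.R332.lower hmn
    (fun k => a (finProdFinEquiv.symm k).1 (finProdFinEquiv.symm k).2) ?_ Q (fun k => hQ _ _)
  intro h
  apply ha
  funext i j
  have := congrFun h (finProdFinEquiv (i, j))
  simpa using this

/-- the map: multiples of `M` -/
noncomputable def F (m n : ℕ) (A : Matrix (Fin (m + 2)) (Fin (n + 1)) ℝ) :
    Matrix (Fin (m + 2)) (Fin (n + 1)) ℝ := A 0 0 • M (m + 2) (n + 1)

theorem F_cont (m n : ℕ) : Continuous (F m n) := by
  unfold F
  exact (continuous_id.matrix_elem 0 0).smul continuous_const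

/-- on an open set the entry `A 0 0` takes two values -/
theorem two_values (m n : ℕ) (U : Set (Matrix (Fin (m + 2)) (Fin (n + 1)) ℝ)) (hU : IsOpen U)
    (hne : U.Nonempty) : ∃ A ∈ U, ∃ B ∈ U, A 0 0 ≠ B 0 0 := by
  obtain ⟨A, hA⟩ := hne
  have hc : Continuous fun t : ℝ => A + t • (Matrix.single 0 0 (1 : ℝ) :
      Matrix (Fin (m + 2)) (Fin (n + 1)) ℝ) := by fun_prop
  have h0 : (fun t : ℝ => A + t • (Matrix.single 0 0 (1 : ℝ) :
      Matrix (Fin (m + 2)) (Fin (n + 1)) ℝ)) 0 ∈ U := by simpa using hA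
  have h1 : ∀ᶠ t in 𝓝 (0 : ℝ), A + t • (Matrix.single 0 0 (1 : ℝ) :
      Matrix (Fin (m + 2)) (Fin (n + 1)) ℝ) ∈ U := hc.continuousAt.eventually (hU.mem_nhds h0)
  obtain ⟨ε, hε, hball⟩ := Metric.eventually_nhds_iff.1 h1
  refine ⟨A, hA, A + (ε / 2) • (Matrix.single 0 0 (1 : ℝ) :
      Matrix (Fin (m + 2)) (Fin (n + 1)) ℝ), hball ?_, ?_⟩
  · rw [Real.dist_eq, sub_zero, abs_of_pos (by linarith)]
    linarith
  · rw [Matrix.add_apply, Matrix.smul_apply, Matrix.single_apply_same]
    simp only [smul_eq_mul, mul_one]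
    intro h
    linarith

theorem F_snc (m n : ℕ) : StronglyNowhereConst (F m n) := by
  intro R₁ R₂ T h1 h2 i j U hU hne
  rintro ⟨c, hc⟩
  obtain ⟨A, hA, B, hB, hAB⟩ := two_values m n U hU hne
  have e : ∀ A, (ratToReal R₁ * F m n A * ratToReal R₂ + ratToReal T) i j =
      A 0 0 * (ratToReal R₁ * M (m + 2) (n + 1) * ratToReal R₂) i j + ratToReal T i j := by
    intro A
    unfold F
    rw [Matrix.mul_smul, Matrix.smul_mul, Matrix.add_apply, Matrix.smul_apply, smul_eq_mul]
  have e1 : (ratToReal R₁ * F m n A * ratToReal R₂ + ratToReal T) i j = c := hc A hA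
  have e2 : (ratToReal R₁ * F m n B * ratToReal R₂ + ratToReal T) i j = c := hc B hB
  rw [e] at e1 e2
  have e3 : (ratToReal R₁ * M (m + 2) (n + 1) * ratToReal R₂) i j = 0 := by
    have e4 : (A 0 0 - B 0 0) * (ratToReal R₁ * M (m + 2) (n + 1) * ratToReal R₂) i j = 0 := by
      linear_combination e1 - e2
    exact (mul_eq_zero.1 e4).resolve_left (sub_ne_zero.2 hAB)
  have e5 : (ratToReal R₁ * M (m + 2) (n + 1) * ratToReal R₂) i j =
      ∑ a, ∑ b, ((R₁ i a * R₂ b j : ℚ) : ℝ) * M (m + 2) (n + 1) a b := by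
    rw [Matrix.mul_apply]
    simp only [Matrix.mul_apply, Finset.sum_mul]
    rw [Finset.sum_comm]
    refine Finset.sum_congr rfl fun a _ => Finset.sum_congr rfl fun b _ => ?_
    simp only [ratToReal, Matrix.map_apply]
    push_cast
    ring
  rw [e5] at e3
  refine M_rat (m + 2) (n + 1) (Nat.succ_le_of_lt (by positivity)) (fun a b => R₁ i a * R₂ b j) ?_ e3
  -- a row of `R₁` and a column of `R₂` are not zero
  have r1 : ∃ a, R₁ i a ≠ 0 := by
    by_contra hcon
    push Not at hcon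
    have h3 : R₁.det = 0 := Matrix.det_eq_zero_of_row_eq_zero i hcon
    rw [Matrix.isUnit_iff_isUnit_det, h3] at h1
    exact not_isUnit_zero h1
  have r2 : ∃ b, R₂ b j ≠ 0 := by
    by_contra hcon
    push Not at hcon
    have h3 : R₂.det = 0 := Matrix.det_eq_zero_of_column_eq_zero j hcon
    rw [Matrix.isUnit_iff_isUnit_det, h3] at h2
    exact not_isUnit_zero h2
  obtain ⟨a, ha⟩ := r1
  obtain ⟨b, hb⟩ := r2
  intro h
  exact mul_ne_zero ha hb (congrFun (congrFun h a) b)

/-- a row of `M` has no integer relations -/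
theorem row_ne (m n : ℕ) (q : Fin (n + 1) → ℤ) (hq : q ≠ 0) :
    (M (m + 2) (n + 1)).mulVec (toReal q) 0 ≠ 0 := by
  have h := M_rat (m + 2) (n + 1) (Nat.succ_le_of_lt (by positivity)) (fun i j => if i = 0 then (q j : ℚ) else 0)
    (by
      intro h
      apply hq
      funext j
      have := congrFun (congrFun h 0) j
      simpa using this)
  rw [Fintype.sum_eq_single 0 (fun i hi => by simp [hi])] at h
  simp only [if_true] at h
  unfold Matrix.mulVec dotProduct
  intro h1
  apply h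
  rw [← h1]
  refine Finset.sum_congr rfl fun j _ => ?_
  simp only [toReal]
  push_cast
  ring

theorem F_lic (m n : ℕ) : LIC (F m n) := by
  rintro Ω hΩ ⟨p, q, hq, h⟩
  obtain ⟨A, hA, B, hB, hAB⟩ := two_values m n (interior Ω) isOpen_interior hΩ
  have e1 := h _ ⟨A, interior_subset hA, rfl⟩
  have e2 := h _ ⟨B, interior_subset hB, rfl⟩
  unfold F at e1 e2
  rw [Matrix.smul_mulVec] at e1 e2
  have e3 : (A 0 0 - B 0 0) • (M (m + 2) (n + 1)).mulVec (toReal q) = 0 := by
    rw [sub_smul, e1, e2, sub_self]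
  have e4 := (smul_eq_zero.1 e3).resolve_left (sub_ne_zero.2 hAB)
  exact row_ne m n q hq (congrFun e4 0)

theorem F_not_liouville (m n : ℕ) (A : Matrix (Fin (m + 2)) (Fin (n + 1)) ℝ) :
    ¬ IsLiouville (F m n A) := by
  rintro ⟨h1, h2⟩
  set s : ℝ := A 0 0 with hs
  set W := M (m + 2) (n + 1) with hW
  have hF : F m n A = s • W := rfl
  -- `s ≠ 0`
  have hs0 : s ≠ 0 := by
    intro h0
    refine h1 (fun _ => 1) 0 (Or.inl ?_) ?_
    · intro h
      have := congrFun h 0
      simp at this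
    · rw [hF, h0, zero_smul, Matrix.zero_mulVec]
      funext i
      simp [toReal]
  have hsp : 0 < |s| := abs_pos.2 hs0
  -- a bound for the entries
  set E : ℝ := ∑ i, ∑ j, |W i j| with hE
  have hE0 : 0 ≤ E := Finset.sum_nonneg fun i _ => Finset.sum_nonneg fun j _ => abs_nonneg _
  have hrow : ∀ (q : Fin (n + 1) → ℤ) (i : Fin (m + 2)),
      |W.mulVec (toReal q) i| ≤ E * ‖toReal q‖ := by
    intro q i
    unfold Matrix.mulVec dotProduct
    calc |∑ j, W i j * toReal q j| ≤ ∑ j, |W i j * toReal q j| := Finset.abs_sum_le_sum_abs _ _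
      _ ≤ ∑ j, |W i j| * ‖toReal q‖ := by
          refine Finset.sum_le_sum fun j _ => ?_
          rw [abs_mul]
          exact mul_le_mul_of_nonneg_left (norm_le_pi_norm (toReal q) j) (abs_nonneg _)
      _ = (∑ j, |W i j|) * ‖toReal q‖ := by rw [Finset.sum_mul]
      _ ≤ E * ‖toReal q‖ := by
          refine mul_le_mul_of_nonneg_right ?_ (norm_nonneg _)
          exact Finset.single_le_sum (f := fun i => ∑ j, |W i j|)
            (fun k _ => Finset.sum_nonneg fun j _ => abs_nonneg _) (Finset.mem_univ i)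
  -- constants
  set D : ℕ := (m + 2) * (n + 1) with hD
  have hD1 : 1 ≤ D := Nat.succ_le_of_lt (by positivity)
  have hDr : (1 : ℝ) ≤ D := by exact_mod_cast hD1
  set K : ℝ := |s| * E + 2 with hK
  have hK1 : 1 ≤ K := by rw [hK]; nlinarith
  set C : ℝ := 2 * D * K with hC
  have hC1 : 1 ≤ C := by rw [hC]; nlinarith
  obtain ⟨N₀, hN₀⟩ := pow_unbounded_of_one_lt ((2 * E + 1 + |s|⁻¹) * C ^ (D - 1))
    (by norm_num : (1 : ℝ) < 2)
  obtain ⟨p, q, hq, hpq⟩ := h2 ((N₀ + 2 * D + 1 : ℕ) : ℝ) (by positivity)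
  set Q : ℝ := ‖toReal q‖ with hQ
  have hQ0 : 0 < Q := by linarith
  have hqi : ∀ i, |(q i : ℝ)| ≤ Q := fun i => norm_le_pi_norm (toReal q) i
  -- `Q ≥ 2`
  obtain ⟨j, hj⟩ : ∃ j, |(q j : ℝ)| = Q := by
    obtain ⟨j, -, hj⟩ := Finset.exists_max_image Finset.univ (fun j => |(q j : ℝ)|)
      Finset.univ_nonempty
    refine ⟨j, le_antisymm (hqi j) ?_⟩
    rw [hQ, pi_norm_le_iff_of_nonneg (abs_nonneg _)]
    intro i
    exact hj i (Finset.mem_univ i)
  have hQ2 : 2 ≤ Q := by
    rw [← hj] at hq ⊢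
    have h3 : (1 : ℤ) < |q j| := by exact_mod_cast hq
    have h4 : (2 : ℤ) ≤ |q j| := by omega
    exact_mod_cast h4
  have hq0 : q ≠ 0 := by
    rintro rfl
    simp at hj
    linarith
  set δ : ℝ := (Q ^ (N₀ + 2 * D + 1))⁻¹ with hδ
  have hδ0 : 0 < δ := by positivity
  have hδ1 : δ ≤ 1 := by
    rw [hδ]
    exact inv_le_one_of_one_le₀ (one_le_pow₀ (by linarith))
  have hpq' : ‖s • W.mulVec (toReal q) - toReal p‖ < δ := by
    rw [hF, Matrix.smul_mulVec, Real.rpow_neg hQ0.le, Real.rpow_natCast] at hpq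
    exact hpq
  have he : ∀ i, |s * W.mulVec (toReal q) i - p i| ≤ δ := fun i =>
    (norm_le_pi_norm (s • W.mulVec (toReal q) - toReal p) i).trans hpq'.le
  set l0 := W.mulVec (toReal q) 0 with hl0
  set l1 := W.mulVec (toReal q) 1 with hl1
  have e0 := he 0
  have e1 := he 1
  rw [← hl0] at e0
  rw [← hl1] at e1
  have hp : ∀ i, |(p i : ℝ)| ≤ K * Q := by
    intro i
    have h3 : (p i : ℝ) = s * W.mulVec (toReal q) i - (s * W.mulVec (toReal q) i - p i) := by ring
    rw [h3]
    refine (abs_sub _ _).trans ?_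
    rw [abs_mul]
    have h4 := mul_le_mul_of_nonneg_left (hrow q i) (abs_nonneg s)
    have h5 := he i
    rw [hK]
    nlinarith
  have hpow : (2 : ℝ) ^ N₀ ≤ Q ^ N₀ := pow_le_pow_left₀ (by norm_num) hQ2 _
  -- the final estimate
  have hfin : ∀ x : ℝ, 0 ≤ x → 1 ≤ x * (2 * (D : ℝ) * (K * Q * Q)) ^ (D - 1) →
      x ≤ (2 * E + 1 + |s|⁻¹) * Q * δ → False := by
    intro x hx h3 h4
    have h5 : (2 * (D : ℝ) * (K * Q * Q)) ^ (D - 1) = C ^ (D - 1) * Q ^ (2 * (D - 1)) := by
      rw [hC, pow_mul, ← mul_pow]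
      congr 1
      ring
    rw [h5] at h3
    have h6 : x * (C ^ (D - 1) * Q ^ (2 * (D - 1))) ≤
        ((2 * E + 1 + |s|⁻¹) * Q * δ) * (C ^ (D - 1) * Q ^ (2 * (D - 1))) :=
      mul_le_mul_of_nonneg_right h4 (by positivity)
    have h7 : ((2 * E + 1 + |s|⁻¹) * Q * δ) * (C ^ (D - 1) * Q ^ (2 * (D - 1))) =
        ((2 * E + 1 + |s|⁻¹) * C ^ (D - 1)) * (Q ^ (2 * (D - 1) + 1) * δ) := by ring
    have h8 : Q ^ (2 * (D - 1) + 1) * δ ≤ (Q ^ N₀)⁻¹ := by
      rw [hδ, ← div_eq_mul_inv, div_le_iff₀ (by positivity), inv_mul_eq_div,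
        le_div_iff₀ (by positivity), ← pow_add]
      exact pow_le_pow_right₀ (by linarith) (by omega)
    have h9 : ((2 * E + 1 + |s|⁻¹) * C ^ (D - 1)) * (Q ^ (2 * (D - 1) + 1) * δ) ≤
        ((2 * E + 1 + |s|⁻¹) * C ^ (D - 1)) * (Q ^ N₀)⁻¹ :=
      mul_le_mul_of_nonneg_left h8 (by positivity)
    have h10 : ((2 * E + 1 + |s|⁻¹) * C ^ (D - 1)) * (Q ^ N₀)⁻¹ < 1 := by
      rw [mul_inv_lt_iff₀ (by positivity), one_mul]
      linarith
    linarith
  have hKQ : ∀ x : ℝ, |x| ≤ Q → |x| ≤ K * Q * Q := by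
    intro x hx
    have : Q ≤ K * Q * Q := by nlinarith [mul_pos hQ0 hQ0]
    linarith
  by_cases hpz : p 0 = 0 ∧ p 1 = 0
  · -- `s l0` is small
    obtain ⟨hp0, -⟩ := hpz
    rw [hp0, Int.cast_zero, sub_zero, abs_mul] at e0
    have h3 := M_int (m + 2) (n + 1) (Nat.succ_le_of_lt (by positivity))
      (fun i j => if i = 0 then q j else 0)
      (by
        intro h
        apply hq0
        funext j
        have := congrFun (congrFun h 0) j
        simpa using this) (K * Q * Q)
      (by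
        intro i j
        split_ifs
        · exact hKQ _ (hqi j)
        · rw [Int.cast_zero, abs_zero]
          positivity)
    have h4 : ∑ i, ∑ j, (((if i = (0 : Fin (m + 2)) then q j else 0 : ℤ)) : ℝ) * W i j = l0 := by
      rw [Fintype.sum_eq_single 0 (fun i hi => by simp [hi])]
      simp only [if_true]
      rw [hl0]
      unfold Matrix.mulVec dotProduct
      exact Finset.sum_congr rfl fun j _ => mul_comm _ _
    rw [← hW, h4, ← hD] at h3
    refine hfin |l0| (abs_nonneg _) h3 ?_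
    have h5 : |l0| ≤ |s|⁻¹ * δ := by
      rw [inv_mul_eq_div, le_div_iff₀ hsp]
      linarith
    refine h5.trans ?_
    have h6 : |s|⁻¹ ≤ (2 * E + 1 + |s|⁻¹) * Q := by
      have : 0 < |s|⁻¹ := inv_pos.2 hsp
      nlinarith
    exact mul_le_mul_of_nonneg_right h6 hδ0.le
  · -- `l0 p1 - l1 p0` is small
    have h3 := M_int (m + 2) (n + 1) (Nat.succ_le_of_lt (by positivity))
      (fun i j => if i = 0 then q j * p 1 else if i = 1 then -(q j * p 0) else 0)
      (by
        intro h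
        apply hpz
        obtain ⟨j, hj⟩ : ∃ j, q j ≠ 0 := by
          by_contra hcon
          push Not at hcon
          exact hq0 (funext hcon)
        have h4 := congrFun (congrFun h 0) j
        have h5 := congrFun (congrFun h 1) j
        simp [hj] at h4 h5
        exact ⟨h5, h4⟩) (K * Q * Q)
      (by
        have hb : ∀ j i, |((q j * p i : ℤ) : ℝ)| ≤ K * Q * Q := by
          intro j i
          push_cast
          rw [abs_mul]
          calc |(q j : ℝ)| * |(p i : ℝ)| ≤ Q * (K * Q) :=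
                mul_le_mul (hqi j) (hp i) (abs_nonneg _) hQ0.le
            _ = K * Q * Q := by ring
        intro i j
        split_ifs
        · exact hb j 1
        · have := hb j 0
          rw [Int.cast_neg, abs_neg]
          exact this
        · rw [Int.cast_zero, abs_zero]
          positivity)
    have h4 : ∑ i, ∑ j, (((if i = (0 : Fin (m + 2)) then q j * p 1 else
        if i = 1 then -(q j * p 0) else 0 : ℤ)) : ℝ) * W i j = l0 * p 1 - l1 * p 0 := by
      rw [Fintype.sum_eq_add (0 : Fin (m + 2)) 1 (by simp) (fun i hi => by simp [hi.1, hi.2])]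
      simp only [if_true, one_ne_zero, if_false]
      rw [hl0, hl1]
      unfold Matrix.mulVec dotProduct
      rw [Finset.sum_mul, Finset.sum_mul, sub_eq_add_neg, ← Finset.sum_neg_distrib]
      congr 1
      · refine Finset.sum_congr rfl fun j _ => ?_
        simp only [toReal]
        push_cast
        ring
      · refine Finset.sum_congr rfl fun j _ => ?_
        simp only [toReal]
        push_cast
        ring
    rw [← hW, h4, ← hD] at h3
    refine hfin _ (abs_nonneg _) h3 ?_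
    have h5 : l0 * p 1 - l1 * p 0 = l1 * (s * l0 - p 0) - l0 * (s * l1 - p 1) := by ring
    rw [h5]
    refine (abs_sub _ _).trans ?_
    rw [abs_mul, abs_mul]
    have r0 : |l0| ≤ E * Q := hrow q 0
    have r1 : |l1| ≤ E * Q := hrow q 1
    have hEQ : 0 ≤ E * Q := mul_nonneg hE0 hQ0.le
    have h6 : |l1| * |s * l0 - p 0| ≤ E * Q * δ := mul_le_mul r1 e0 (abs_nonneg _) hEQ
    have h7 : |l0| * |s * l1 - p 1| ≤ E * Q * δ := mul_le_mul r0 e1 (abs_nonneg _) hEQ
    have h8 : 0 < |s|⁻¹ := inv_pos.2 hsp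
    have h9 : 0 ≤ (1 + |s|⁻¹) * (Q * δ) := by positivity
    calc |l1| * |s * l0 - p 0| + |l0| * |s * l1 - p 1| ≤ E * Q * δ + E * Q * δ := add_le_add h6 h7
      _ ≤ (2 * E + 1 + |s|⁻¹) * Q * δ := by linarith

/-- **The admissible pairs.** For `m, n ≥ 1`: there is a continuous, strongly nowhere constant map
`f` with the LIC property from the real `m × n` matrices to themselves such that `f(A)` is a
Liouville matrix for no `A`, if and only if `m ≥ 2`. -/
theorem result (m n : ℕ) (hm : 1 ≤ m) (hn : 1 ≤ n) : Admissible m n ↔ 2 ≤ m := by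
  constructor
  · intro h
    by_contra hcon
    obtain rfl : m = 1 := by omega
    exact not_admissible_one n hn h
  · intro hm2
    obtain ⟨m, rfl⟩ : ∃ k, m = k + 2 := ⟨m - 2, by omega⟩
    obtain ⟨n, rfl⟩ : ∃ k, n = k + 1 := ⟨n - 1, by omega⟩
    exact ⟨F m n, F_cont m n, F_snc m n, F_lic m n, F_not_liouville m n⟩

end Pool.Agent.Results.MP_6d7a61_nt.AdmissiblePairs
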